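import Mathlib
import Pool.Agent.Lib.Rossi.Hilb
import Pool.Agent.Lib.Rossi.Toric

set_option autoImplicit false

namespace Pool.Agent.Results.MP_60a13f_al.TangentConeDrop

open Finset PowerSeries

universe u

/-- The seven generators. -/
def g : Fin 7 → ℕ := ![1675, 1692, 1710, 2700, 2850, 3150, 3600]

/-- The numerical semigroup generated by them. -/
def Γ : AddSubmonoid ℕ := AddSubmonoid.closure (Set.range g)

variable (k : Type u) [Field k]

lemma supp_mul {f h : PowerSeries k} (hf : ∀ n, coeff n f ≠ 0 → n ∈ Γ)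
    (hh : ∀ n, coeff n h ≠ 0 → n ∈ Γ) : ∀ n, coeff n (f * h) ≠ 0 → n ∈ Γ := by
  intro n hn
  rw [coeff_mul] at hn
  obtain ⟨p, hp, hne⟩ := Finset.exists_ne_zero_of_sum_ne_zero hn
  rw [Finset.HasAntidiagonal.mem_antidiagonal] at hp
  rw [← hp]
  exact Γ.add_mem (hf _ (left_ne_zero_of_mul hne)) (hh _ (right_ne_zero_of_mul hne))

lemma supp_add {f h : PowerSeries k} (hf : ∀ n, coeff n f ≠ 0 → n ∈ Γ)
    (hh : ∀ n, coeff n h ≠ 0 → n ∈ Γ) : ∀ n, coeff n (f + h) ≠ 0 → n ∈ Γ := by
  intro n hn
  rw [map_add] at hn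
  by_cases h1 : coeff n f = 0
  · rw [h1, zero_add] at hn
    exact hh n hn
  · exact hf n h1

lemma supp_C (r : k) : ∀ n, coeff n (algebraMap k (PowerSeries k) r) ≠ 0 → n ∈ Γ := by
  intro n hn
  have h1 : algebraMap k (PowerSeries k) r = C r := rfl
  rw [h1, coeff_C] at hn
  have : n = 0 := by
    by_contra hcon
    exact hn (if_neg hcon)
  rw [this]
  exact Γ.zero_mem

/-- The semigroup ring `k[[Γ]] = k[[t^{1675}, …, t^{3600}]]`: power series supported on `Γ`. -/
noncomputable def R : Subalgebra k (PowerSeries k) where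
  carrier := {f | ∀ n, coeff n f ≠ 0 → n ∈ Γ}
  mul_mem' := supp_mul k
  add_mem' := supp_add k
  algebraMap_mem' := supp_C k

/-- The maximal ideal `(t^{1675}, …, t^{3600})`. -/
noncomputable def m : Ideal (R k) := Ideal.span {x | ∃ i, (x : PowerSeries k) = X ^ g i}

/-- `m ^ j` as a `k`-subspace of the ring. -/
noncomputable def mpow (j : ℕ) : Submodule k (R k) := (m k ^ j).restrictScalars k

/-- The Hilbert function `dim_k m^j / m^{j+1}` (dimension of the image of `m^j` in `R / m^{j+1}`). -/
noncomputable def hilb (j : ℕ) : ℕ :=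
  Module.finrank k (Submodule.map (mpow k (j + 1)).mkQ (mpow k j))

/-! ### Comparison with the combinatorial data -/

/-- reordering of the generators -/
def sg : Fin 7 → Fin 7 := ![6, 5, 3, 0, 4, 2, 1]

lemma g_eq (i : Fin 7) : g i = Rossi.g (sg i) := by
  fin_cases i <;> rfl

lemma sg_bij : Function.Bijective sg := by
  constructor
  · decide
  · decide

lemma Γ_eq : Γ = Rossi.Gam := by
  apply le_antisymm
  · rw [Γ, AddSubmonoid.closure_le]
    rintro _ ⟨i, rfl⟩
    rw [g_eq]
    exact Rossi.g_mem _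
  · intro n hn
    obtain ⟨a, rfl⟩ := Rossi.mem_Gam.mp hn
    unfold Rossi.wt
    apply AddSubmonoid.sum_mem
    intro i _
    rw [← smul_eq_mul]
    apply AddSubmonoid.nsmul_mem
    obtain ⟨j, rfl⟩ := sg_bij.2 i
    rw [← g_eq]
    exact AddSubmonoid.subset_closure ⟨j, rfl⟩

/-- sums of at least `j` generators -/
def E (j : ℕ) : Set ℕ := {n | ∃ i, j ≤ i ∧ Rossi.Ex i n}

lemma E_zero {n : ℕ} (h : n ∈ Γ) : n ∈ E 0 := by
  rw [Γ_eq] at h
  obtain ⟨a, ha⟩ := Rossi.mem_Gam.mp h
  exact ⟨∑ l, a l, Nat.zero_le _, a, rfl, ha⟩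

lemma E_sub {j n : ℕ} (h : n ∈ E j) : n ∈ Γ := by
  obtain ⟨i, _, a, _, ha⟩ := h
  rw [Γ_eq]
  exact Rossi.mem_Gam.mpr ⟨a, ha⟩

lemma E_add {j a b : ℕ} (ha : a ∈ E j) (hb : b ∈ Γ) : a + b ∈ E j := by
  obtain ⟨i, hi, x, hx1, hx2⟩ := ha
  rw [Γ_eq] at hb
  obtain ⟨y, hy⟩ := Rossi.mem_Gam.mp hb
  refine ⟨i + ∑ l, y l, by omega, x + y, ?_, ?_⟩
  · simp [Finset.sum_add_distrib, hx1]
  · rw [Rossi.wt_add, hx2, hy]

lemma E_succ_of {j n : ℕ} (i : Fin 7) (h : n ∈ E j) : g i + n ∈ E (j + 1) := by
  obtain ⟨t, ht, hx⟩ := h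
  refine ⟨t + 1, by omega, ?_⟩
  rw [Rossi.Ex_succ]
  refine ⟨sg i, ?_, ?_⟩
  · rw [← g_eq]; omega
  · rw [← g_eq]
    simpa using hx

lemma E_succ {j n : ℕ} (h : n ∈ E (j + 1)) : ∃ i : Fin 7, g i ≤ n ∧ n - g i ∈ E j := by
  obtain ⟨t, ht, hx⟩ := h
  obtain ⟨t, rfl⟩ : ∃ t', t = t' + 1 := ⟨t - 1, by omega⟩
  rw [Rossi.Ex_succ] at hx
  obtain ⟨l, hl, hx⟩ := hx
  obtain ⟨i, rfl⟩ := sg_bij.2 l
  rw [← g_eq] at hl hx
  exact ⟨i, hl, t, by omega, hx⟩

lemma E_anti {j : ℕ} : E (j + 1) ⊆ E j := fun _ ⟨i, hi, h⟩ => ⟨i, by omega, h⟩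

lemma E_eq {j : ℕ} (hj : 1 ≤ j) : E j = Rossi.JM j := by
  ext n
  constructor
  · rintro ⟨i, hi, h⟩
    exact Rossi.JM_bwd j hj hi h
  · exact Rossi.JM_fwd j

lemma mem_R {f : PowerSeries k} : f ∈ R k ↔ ∀ n, coeff n f ≠ 0 → n ∈ Γ := Iff.rfl

/-- the ideal of series supported on `E j` -/
noncomputable def SI (j : ℕ) : Ideal (R k) where
  carrier := {f | ∀ n, coeff n (f : PowerSeries k) ≠ 0 → n ∈ E j}
  add_mem' := by
    intro a b ha hb n hn
    have h1 : coeff n (((a + b : R k)) : PowerSeries k) = coeff n (a : PowerSeries k) + coeff n (b : PowerSeries k) := by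
      rw [← map_add]; rfl
    rw [h1] at hn
    by_cases h2 : coeff n (a : PowerSeries k) = 0
    · rw [h2, zero_add] at hn
      exact hb n hn
    · exact ha n h2
  zero_mem' := by
    intro n hn
    exact absurd (by simp) hn
  smul_mem' := by
    intro c x hx n hn
    have h1 : ((c • x : R k) : PowerSeries k) = (c : PowerSeries k) * (x : PowerSeries k) := rfl
    rw [h1, coeff_mul] at hn
    obtain ⟨p, hp, hne⟩ := Finset.exists_ne_zero_of_sum_ne_zero hn
    rw [Finset.HasAntidiagonal.mem_antidiagonal] at hp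
    rw [← hp, add_comm]
    exact E_add (hx _ (right_ne_zero_of_mul hne)) (mem_R k |>.mp c.2 _ (left_ne_zero_of_mul hne))

lemma mem_SI {j : ℕ} {f : R k} : f ∈ SI k j ↔ ∀ n, coeff n (f : PowerSeries k) ≠ 0 → n ∈ E j :=
  Iff.rfl

lemma m_pow_le (j : ℕ) : m k ^ j ≤ SI k j := by
  induction j with
  | zero =>
    intro f _ n hn
    exact E_zero (mem_R k |>.mp f.2 n hn)
  | succ j ih =>
    rw [pow_succ', Ideal.mul_le]
    intro r hr s hs
    have hs' := ih hs
    unfold m at hr
    induction hr using Submodule.span_induction with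
    | mem x hx =>
      obtain ⟨i, hi⟩ := hx
      intro n hn
      have h1 : ((x * s : R k) : PowerSeries k) = (X : PowerSeries k) ^ g i * (s : PowerSeries k) := by
        rw [← hi]; rfl
      rw [h1, coeff_X_pow_mul'] at hn
      have h2 : g i ≤ n := by
        by_contra hcon
        rw [if_neg hcon] at hn
        exact hn rfl
      rw [if_pos h2] at hn
      have h3 := hs' _ hn
      have h4 := E_succ_of i h3
      have h5 : g i + (n - g i) = n := by omega
      rwa [h5] at h4
    | zero => rw [zero_mul]; exact Ideal.zero_mem _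
    | add x y _ _ hx hy => rw [add_mul]; exact Ideal.add_mem _ hx hy
    | smul a x _ hx => rw [smul_eq_mul, mul_assoc]; exact Ideal.mul_mem_left _ _ hx

/-- the element `t^{g i}` of the ring -/
noncomputable def tg (i : Fin 7) : R k := ⟨(X : PowerSeries k) ^ g i, by
  intro n hn
  rw [coeff_X_pow] at hn
  have : n = g i := by
    by_contra hcon
    exact hn (if_neg hcon)
  rw [this]
  exact AddSubmonoid.subset_closure ⟨i, rfl⟩⟩

lemma tg_mem (i : Fin 7) : tg k i ∈ m k := Ideal.subset_span ⟨i, rfl⟩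

lemma SI_le (j : ℕ) : SI k j ≤ m k ^ j := by
  classical
  induction j with
  | zero => intro f _; rw [pow_zero, Ideal.one_eq_top]; trivial
  | succ j ih =>
    intro f hf
    have hch : ∀ n : ℕ, ∃ i : Fin 7, n ∈ E (j + 1) → g i ≤ n ∧ n - g i ∈ E j := by
      intro n
      by_cases h : n ∈ E (j + 1)
      · obtain ⟨i, hi⟩ := E_succ h
        exact ⟨i, fun _ => hi⟩
      · exact ⟨0, fun h' => absurd h' h⟩
    choose ch hch using hch
    let F : Fin 7 → PowerSeries k := fun i => PowerSeries.mk fun n =>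
      if ch (n + g i) = i then coeff (n + g i) (f : PowerSeries k) else 0
    have hF : ∀ i n, coeff n (F i) ≠ 0 → n ∈ E j := by
      intro i n hn
      simp only [F, coeff_mk] at hn
      have h1 : ch (n + g i) = i := by
        by_contra hcon
        rw [if_neg hcon] at hn
        exact hn rfl
      rw [if_pos h1] at hn
      have h2 := hch _ (hf _ hn)
      rw [h1] at h2
      have h3 : n + g i - g i = n := by omega
      rw [h3] at h2
      exact h2.2
    let F' : Fin 7 → R k := fun i => ⟨F i, fun n hn => E_sub (hF i n hn)⟩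
    have hsum : f = ∑ i, tg k i * F' i := by
      apply Subtype.ext
      have h1 : ((∑ i, tg k i * F' i : R k) : PowerSeries k) = ∑ i, (X : PowerSeries k) ^ g i * F i := by
        rw [AddSubmonoidClass.coe_finsetSum]
        rfl
      rw [h1]
      ext n
      rw [map_sum]
      simp only [coeff_X_pow_mul']
      by_cases hn : coeff n (f : PowerSeries k) = 0
      · rw [hn]
        symm
        apply Finset.sum_eq_zero
        intro i _
        by_cases h2 : g i ≤ n
        · rw [if_pos h2]
          simp only [F, coeff_mk]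
          have h3 : n - g i + g i = n := by omega
          rw [h3, hn]
          simp
        · rw [if_neg h2]
      · have h4 := hch n (hf n hn)
        rw [Finset.sum_eq_single (ch n)]
        · rw [if_pos h4.1]
          simp only [F, coeff_mk]
          have h3 : n - g (ch n) + g (ch n) = n := by omega
          rw [h3]
          simp
        · intro i _ hi
          by_cases h2 : g i ≤ n
          · rw [if_pos h2]
            simp only [F, coeff_mk]
            have h3 : n - g i + g i = n := by omega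
            rw [h3, if_neg (fun h => hi h.symm)]
          · rw [if_neg h2]
        · intro h5
          exact absurd (Finset.mem_univ _) h5
    rw [hsum, pow_succ']
    apply Ideal.sum_mem
    intro i _
    exact Ideal.mul_mem_mul (tg_mem k i) (ih (hF i))

lemma m_pow (j : ℕ) : m k ^ j = SI k j := le_antisymm (m_pow_le k j) (SI_le k j)

lemma E_diff_finite (j : ℕ) : (E j \ E (j + 1)).Finite := by
  apply (Set.finite_Iic (3600 * j)).subset
  rintro n ⟨⟨i, hi, h1⟩, h2⟩
  have : i = j := by
    by_contra hcon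
    exact h2 ⟨i, by omega, h1⟩
  subst this
  exact Rossi.Ex_le h1

lemma hilb_eq (j : ℕ) : hilb k j = Set.ncard (E j \ E (j + 1)) := by
  classical
  have hfin := E_diff_finite j
  let F : Type := {n : ℕ // n ∈ E j \ E (j + 1)}
  have : Finite F := hfin
  have : Fintype F := Fintype.ofFinite F
  let L : R k →ₗ[k] (F → k) :=
    { toFun := fun f n => coeff (n : ℕ) (f : PowerSeries k)
      map_add' := by
        intro a b
        funext n
        change coeff (n : ℕ) ((a : PowerSeries k) + (b : PowerSeries k)) = _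
        rw [map_add]
        rfl
      map_smul' := by
        intro c a
        funext n
        change coeff (n : ℕ) (c • (a : PowerSeries k)) = _
        rw [coeff_smul]
        rfl }
  have hK : mpow k (j + 1) ≤ LinearMap.ker L := by
    intro f hf
    rw [LinearMap.mem_ker]
    funext n
    by_contra hcon
    have h1 : f ∈ m k ^ (j + 1) := hf
    rw [m_pow] at h1
    exact n.2.2 (h1 n hcon)
  let Lb : (R k ⧸ mpow k (j + 1)) →ₗ[k] (F → k) := (mpow k (j + 1)).liftQ L hK
  let Q := Submodule.map (mpow k (j + 1)).mkQ (mpow k j)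
  let Φ : Q →ₗ[k] (F → k) := Lb.domRestrict Q
  have hΦ : Function.Bijective Φ := by
    constructor
    · rw [injective_iff_map_eq_zero]
      rintro ⟨x, hx⟩ h0
      obtain ⟨f, hf, rfl⟩ := hx
      have h1 : L f = 0 := h0
      have h2 : f ∈ mpow k (j + 1) := by
        change f ∈ m k ^ (j + 1)
        rw [m_pow]
        intro n hn
        have h3 : f ∈ m k ^ j := hf
        rw [m_pow] at h3
        by_contra hcon
        exact hn (congrFun h1 ⟨n, h3 n hn, hcon⟩)
      apply Subtype.ext
      exact (Submodule.Quotient.mk_eq_zero _).mpr h2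
    · intro c
      let f : PowerSeries k := PowerSeries.mk fun n => if h : n ∈ E j \ E (j + 1) then c ⟨n, h⟩ else 0
      have hf : ∀ n, coeff n f ≠ 0 → n ∈ E j := by
        intro n hn
        simp only [f, coeff_mk] at hn
        by_contra hcon
        exact hn (dif_neg (fun h => hcon h.1))
      let f' : R k := ⟨f, fun n hn => E_sub (hf n hn)⟩
      have hf' : f' ∈ mpow k j := by
        change f' ∈ m k ^ j
        rw [m_pow]
        exact hf
      refine ⟨⟨(mpow k (j + 1)).mkQ f', Submodule.mem_map_of_mem hf'⟩, ?_⟩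
      change L f' = c
      funext n
      change coeff (n : ℕ) f = c n
      simp only [f, coeff_mk]
      rw [dif_pos n.2]
  have h1 := (LinearEquiv.ofBijective Φ hΦ).finrank_eq
  rw [Module.finrank_fintype_fun_eq_card] at h1
  unfold hilb
  rw [← Nat.card_coe_set_eq, ← Nat.card_eq_fintype_card] at *
  exact h1

/-! ### The toric ideal -/

/-- The parametrisation `x_i ↦ t^{g i}`. -/
noncomputable def phi : MvPolynomial (Fin 7) k →ₐ[k] Polynomial k :=
  MvPolynomial.aeval fun i => (Polynomial.X : Polynomial k) ^ g i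

/-- inverse reordering -/
def si : Fin 7 → Fin 7 := ![3, 6, 5, 2, 4, 1, 0]

lemma g_si (i : Fin 7) : g (si i) = Rossi.g i := by
  fin_cases i <;> rfl

/-- variables -/
noncomputable def Y (i : Fin 7) : MvPolynomial (Fin 7) k := MvPolynomial.X (si i)

/-- the six relations -/
noncomputable def rel : Fin 6 → MvPolynomial (Fin 7) k :=
  ![Y k 1 ^ 3 - Y k 0 ^ 4, Y k 2 ^ 2 - Y k 0 * Y k 1, Y k 3 ^ 5 - Y k 0 ^ 2 * Y k 2,
    Y k 4 ^ 3 - Y k 0 ^ 2 * Y k 2, Y k 5 ^ 5 - Y k 3 * Y k 1 * Y k 2, Y k 6 ^ 6 - Y k 1 ^ 2 * Y k 4]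

lemma phi_Y (i : Fin 7) : phi k (Y k i) = Polynomial.X ^ Rossi.g i := by
  rw [phi, Y, MvPolynomial.aeval_X, g_si]

lemma rel_mem (i : Fin 6) : phi k (rel k i) = 0 := by
  fin_cases i <;>
    simp [rel, phi_Y, Rossi.g, map_sub, map_mul, map_pow, ← pow_mul, ← pow_add]

/-- the ideal generated by the relations -/
noncomputable abbrev J : Ideal (MvPolynomial (Fin 7) k) := Ideal.span (Set.range (rel k))

lemma rels_quot : Rossi.Rels (fun i => Ideal.Quotient.mk (J k) (Y k i)) := by
  have key : ∀ i : Fin 6, Ideal.Quotient.mk (J k) (rel k i) = 0 := by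
    intro i
    rw [Ideal.Quotient.eq_zero_iff_mem]
    apply Ideal.subset_span
    exact ⟨i, rfl⟩
  refine ⟨?_, ?_, ?_, ?_, ?_, ?_⟩
  · have := key 0
    simp only [rel, Matrix.cons_val_zero, map_sub, map_pow, sub_eq_zero] at this
    exact this
  · have := key 1
    simp only [rel, Matrix.cons_val_one, Matrix.cons_val_zero, map_sub, map_pow, map_mul, sub_eq_zero] at this
    exact this
  · have := key 2
    simp only [rel, Matrix.cons_val, map_sub, map_pow, map_mul, sub_eq_zero] at this
    exact this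
  · have := key 3
    simp only [rel, Matrix.cons_val, map_sub, map_pow, map_mul, sub_eq_zero] at this
    exact this
  · have := key 4
    simp only [rel, Matrix.cons_val, map_sub, map_pow, map_mul, sub_eq_zero] at this
    exact this
  · have := key 5
    simp only [rel, Matrix.cons_val, map_sub, map_pow, map_mul, sub_eq_zero] at this
    exact this

open Classical in
/-- section `t^n ↦` class of a monomial of weight `n` -/
noncomputable def sec (n : ℕ) : MvPolynomial (Fin 7) k ⧸ J k :=
  if h : ∃ a : Fin 7 → ℕ, Rossi.wt a = n then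
    Rossi.mon (fun i => Ideal.Quotient.mk (J k) (Y k i)) h.choose
  else 0

lemma sec_wt (a : Fin 7 → ℕ) : sec k (Rossi.wt a) =
    Rossi.mon (fun i => Ideal.Quotient.mk (J k) (Y k i)) a := by
  have h : ∃ b : Fin 7 → ℕ, Rossi.wt b = Rossi.wt a := ⟨a, rfl⟩
  rw [sec, dif_pos h]
  exact Rossi.mon_eq_of_wt (rels_quot k) h.choose_spec

/-- the linear section -/
noncomputable def psi : Polynomial k →ₗ[k] MvPolynomial (Fin 7) k ⧸ J k :=
  Polynomial.lsum (fun n => LinearMap.toSpanSingleton k _ (sec k n))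

lemma psi_monomial (n : ℕ) (c : k) : psi k (Polynomial.monomial n c) = c • sec k n := by
  simp [psi]

lemma monomial_eq (e : Fin 7 →₀ ℕ) (c : k) :
    MvPolynomial.monomial e c = c • Rossi.mon (Y k) (fun i => e (si i)) := by
  classical
  have h1 : MvPolynomial.monomial e c = MvPolynomial.C c * ∏ i : Fin 7, Y k i ^ e (si i) := by
    rw [MvPolynomial.monomial_eq]
    congr 1
    rw [Finsupp.prod_fintype _ _ (by intro i; simp)]
    symm
    exact Fintype.prod_bijective si (by decide) _ _ (fun i => rfl)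
  rw [h1, MvPolynomial.smul_eq_C_mul, Fin.prod_univ_seven]
  rfl

lemma quot_eq (f : MvPolynomial (Fin 7) k) :
    Ideal.Quotient.mk (J k) f = psi k (phi k f) := by
  induction f using MvPolynomial.induction_on' with
  | monomial e c =>
    have h2 : phi k (MvPolynomial.monomial e c) = Polynomial.monomial (Rossi.wt (fun i => e (si i))) c := by
      rw [monomial_eq, map_smul]
      have : phi k (Rossi.mon (Y k) (fun i => e (si i))) = Polynomial.X ^ Rossi.wt (fun i => e (si i)) := by
        simp only [Rossi.mon, map_mul, map_pow, phi_Y]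
        rw [Rossi.wt_eq]
        simp only [← pow_mul, ← pow_add]
        simp [Rossi.g]
      rw [this, Polynomial.smul_eq_C_mul, Polynomial.C_mul_X_pow_eq_monomial]
    rw [h2, psi_monomial, sec_wt, monomial_eq]
    have h3 : ∀ x : MvPolynomial (Fin 7) k, Ideal.Quotient.mk (J k) (c • x)
        = c • Ideal.Quotient.mk (J k) x := fun x => rfl
    rw [h3]
    simp [Rossi.mon]
  | add p q hp hq => rw [map_add, map_add, map_add, hp, hq]

lemma span_eq_ker : J k = RingHom.ker (phi k) := by
  apply le_antisymm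
  · rw [Ideal.span_le]
    rintro _ ⟨i, rfl⟩
    exact rel_mem k i
  · intro f hf
    rw [RingHom.mem_ker] at hf
    rw [← Ideal.Quotient.eq_zero_iff_mem, quot_eq, hf, map_zero]

lemma t30 : Rossi.pc 17 (Rossi.D 30 35) = 1643 := by decide +kernel

lemma t31 : Rossi.pc 17 (Rossi.D 31 36) = 1642 := by decide +kernel

lemma minimal (i : Fin 7) : g i ∉ AddSubmonoid.closure (g '' {i}ᶜ) := by
  intro h
  have hirr := Rossi.irr_g (sg i)
  rw [← g_eq] at hirr
  -- every element of the closure is zero or a generator `g j`, `j ≠ i`, plus an element of `Γ`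
  have key : ∀ n ∈ AddSubmonoid.closure (g '' {i}ᶜ), n = 0 ∨ ∃ j, j ≠ i ∧ ∃ c ∈ Γ, g j + c = n := by
    intro n hn
    induction hn using AddSubmonoid.closure_induction with
    | mem x hx =>
      obtain ⟨j, hj, rfl⟩ := hx
      exact Or.inr ⟨j, hj, 0, Γ.zero_mem, by simp⟩
    | zero => exact Or.inl rfl
    | add x y hx hy ihx ihy =>
      rcases ihx with rfl | ⟨j, hj, c, hc, rfl⟩
      · rw [zero_add]; exact ihy
      · refine Or.inr ⟨j, hj, c + y, Γ.add_mem hc ?_, by ring⟩
        exact (AddSubmonoid.closure_mono (Set.image_subset_range _ _)) hy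
  rcases key _ h with h0 | ⟨j, hj, c, hc, hjc⟩
  · exact hirr.2.1 h0
  · have h1 : g j ∈ Rossi.Gam := by rw [g_eq]; exact Rossi.g_mem _
    rw [Γ_eq] at hc
    rcases hirr.2.2 _ h1 _ hc hjc with h2 | h2
    · have := Rossi.g_pos (sg j)
      rw [← g_eq] at this
      omega
    · rw [h2, add_zero] at hjc
      apply hj
      apply sg_bij.1
      apply Rossi.g_inj
      rw [← g_eq, ← g_eq]
      exact hjc

/-- **Theorem (negative answer to Rossi's question for numerical semigroups).** The numerical
semigroup minimally generated by `1675, 1692, 1710, 2700, 2850, 3150, 3600` is a complete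
intersection (over every field its toric ideal has 6 generators), and over every field the Hilbert
function of the tangent cone of its semigroup ring satisfies `h(30) = 1643 > 1642 = h(31)`. -/
theorem result (k : Type u) [Field k] :
    ((Γ : Set ℕ)ᶜ).Finite ∧ (∀ i, g i ∉ AddSubmonoid.closure (g '' {i}ᶜ)) ∧
    (∃ s : Fin 6 → MvPolynomial (Fin 7) k, Ideal.span (Set.range s) = RingHom.ker (phi k)) ∧
    hilb k 30 = 1643 ∧ hilb k 31 = 1642 := by
  refine ⟨?_, minimal, ⟨rel k, span_eq_ker k⟩, ?_, ?_⟩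
  · rw [Γ_eq]
    exact Rossi.finite_compl
  · rw [hilb_eq, E_eq (by norm_num), E_eq (by norm_num),
      Rossi.ncard_eq 30 35 17 (by norm_num) (by norm_num) (by norm_num), t30]
  · rw [hilb_eq, E_eq (by norm_num), E_eq (by norm_num),
      Rossi.ncard_eq 31 36 17 (by norm_num) (by norm_num) (by norm_num), t31]

end Pool.Agent.Results.MP_60a13f_al.TangentConeDrop
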